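import Pool.Agent.Results.MP_fed7ff_nt.AlmostAllShifts

set_option autoImplicit false

/-!
# The coefficient sums of the multiple Dirichlet series of quadratic `L`-functions along almost every direction

The theorem `AlmostAllShifts` of this page (`θ > 1`) says for each single `X` that the coefficient sums
`∑_{|d| < X} ∏_j L(1/2 + i t_j, χ_d)` have the predicted value, with a power saving, for all `t` in the cube
`[-X ^ θ, X ^ θ] ^ k` but a set of measure at most `X ^ (kθ - δ)`, which depends on `X`. Here we show that there are no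
exceptions along almost every direction: let `X_1, X_2, ...` be a sequence such that the sum of the `X_n ^ (-ε)`
converges for every `ε > 0`, for example the powers of `2`. For almost every `b` in `[-1, 1] ^ k`, for ALL large `n`, the
sum has the predicted value at `t = X_n ^ θ b`. More generally `t = c_n + r_n b`, where `X_n ^ (θ - δ) ≤ r_n` and the cube
`c_n + r_n [-1, 1] ^ k` lies in `[-X_n ^ θ, X_n ^ θ] ^ k`: small cubes at arbitrary places. No discriminant is removed.
-/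

open Filter MeasureTheory
open scoped ENNReal

namespace Pool.Agent.Results.MP_fed7ff_nt.AlmostEveryDirection

open Pool.Agent.Results.MP_fed7ff_nt.AlmostAllShifts (chars L coefficientSum localFactor A residue)

/-- The sum of `∏_j L(1/2 + i t_j, χ_d)` over the discriminants of sign `s`, `1 < |d| < X`, differs from `X` times the
residue at `w = 1` (at `s_j = 1/2 + i t_j`) by at most `X ^ (1 - δ)`. -/
def AsPredicted {k : ℕ} (s : ℤ) (δ X : ℝ) (t : Fin k → ℝ) : Prop :=
  ‖coefficientSum s X t - X * residue (fun j => Complex.I * (t j : ℂ))‖ ≤ X ^ (1 - δ)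

/-- the measure of the bad `b` in the unit cube -/
theorem scaled {k : ℕ} (P : (Fin k → ℝ) → Prop) (c : Fin k → ℝ) {r R : ℝ} (hr : 0 < r)
    (hc : ∀ j, |c j| + r ≤ R) :
    volume {b : Fin k → ℝ | (∀ j, |b j| ≤ 1) ∧ P (fun j => c j + r * b j)} ≤
      ENNReal.ofReal ((r ^ k)⁻¹) * volume {α : Fin k → ℝ | (∀ j, |α j| ≤ R) ∧ P α} := by
  have h1 : {b : Fin k → ℝ | (∀ j, |b j| ≤ 1) ∧ P (fun j => c j + r * b j)} ⊆
      (fun b : Fin k → ℝ => r • b) ⁻¹' ((fun α => c + α) ⁻¹' {α : Fin k → ℝ | (∀ j, |α j| ≤ R) ∧ P α}) := by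
    rintro b ⟨h1, h2⟩
    refine ⟨fun j => ?_, h2⟩
    show |c j + r * b j| ≤ R
    refine (abs_add_le _ _).trans (le_trans ?_ (hc j))
    rw [abs_mul, abs_of_pos hr]
    have := h1 j
    nlinarith
  refine (measure_mono h1).trans ?_
  rw [Measure.addHaar_preimage_smul volume hr.ne', measure_preimage_add, Module.finrank_fin_fun]
  rw [abs_of_pos (by positivity)]

/-- **Coefficient sums along almost every direction.** Let `k ≥ 1`, and let `X_n ≥ 1` be real numbers such that the sum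
of the `X_n ^ (-ε)` converges for every `ε > 0`. For both signs `s` and all `θ > 1` there is a `δ > 0` with the following
property. Let `c_n` be vectors and `r_n > 0` numbers with `|c_{n,j}| + r_n ≤ X_n ^ θ` and `r_n ≥ X_n ^ (θ - δ)` for all
large `n`. Then for almost every `b` in the cube `[-1, 1] ^ k`, for ALL large `n`: `AsPredicted s δ X_n (c_n + r_n b)`.
In particular (`c_n = 0`, `r_n = X_n ^ θ`) this holds for the shifts `i X_n ^ θ b_j`. The number `δ` does not depend on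
the sequence `X_n`. -/
theorem result (k : ℕ) (hk : 1 ≤ k) (s : ℤ) (hs : s = 1 ∨ s = -1) (θ : ℝ) (hθ : 1 < θ) : ∃ δ : ℝ, 0 < δ ∧
    ∀ X : ℕ → ℝ, (∀ n, 1 ≤ X n) → (∀ ε : ℝ, 0 < ε → Summable fun n => X n ^ (-ε)) →
      ∀ (c : ℕ → Fin k → ℝ) (r : ℕ → ℝ), (∀ᶠ n : ℕ in atTop, X n ^ (θ - δ) ≤ r n ∧ ∀ j, |c n j| + r n ≤ X n ^ θ) →
        ∀ᵐ b : Fin k → ℝ, (∀ j, |b j| ≤ 1) → ∀ᶠ n : ℕ in atTop, AsPredicted s δ (X n) fun j => c n j + r n * b j := by
  classical
  obtain ⟨δ₀, X₀, hδ₀, h0⟩ := AlmostAllShifts.result k hk s hs θ hθ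
  have hk1 : (1 : ℝ) ≤ k := by exact_mod_cast hk
  obtain ⟨δ, hδdef⟩ : ∃ δ : ℝ, δ = δ₀ / (2 * k) := ⟨_, rfl⟩
  have hδ : 0 < δ := by rw [hδdef]; positivity
  have hδ1 : δ ≤ δ₀ := by
    rw [hδdef, div_le_iff₀ (by positivity)]
    nlinarith
  have hδ2 : δ₀ = 2 * k * δ := by
    rw [hδdef]
    field_simp
  refine ⟨δ, hδ, fun X hX1 hX c r hcr => ?_⟩
  have hXlarge : ∀ᶠ n : ℕ in atTop, X₀ ≤ X n := by
    have h1 := (hX 1 one_pos).tendsto_atTop_zero
    have h2 : (0 : ℝ) < (|X₀| + 1)⁻¹ := by positivity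
    filter_upwards [h1.eventually (gt_mem_nhds h2)] with n hn
    rw [Real.rpow_neg_one] at hn
    have h3 := (inv_lt_inv₀ (by linarith [hX1 n]) (by positivity)).1 hn
    linarith [le_abs_self X₀]
  obtain ⟨Q, hQ⟩ : ∃ Q : ℕ → Prop, Q = fun n => X₀ ≤ X n ∧ X n ^ (θ - δ) ≤ r n ∧ ∀ j, |c n j| + r n ≤ X n ^ θ :=
    ⟨_, rfl⟩
  have hmeas : ∀ n, volume {b : Fin k → ℝ | Q n ∧ (∀ j, |b j| ≤ 1) ∧
      ¬ AsPredicted s δ (X n) fun j => c n j + r n * b j} ≤ ENNReal.ofReal (X n ^ (-(k * δ))) := by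
    intro n
    by_cases hQn : Q n
    · rw [hQ] at hQn
      obtain ⟨h1, h2, h3⟩ := hQn
      have hXn := hX1 n
      have hX0 : 0 < X n := by linarith
      have hr : 0 < r n := lt_of_lt_of_le (by positivity) h2
      have h4 := scaled (fun α => ¬ AsPredicted s δ (X n) α) (c n) hr h3
      have h5 : {α : Fin k → ℝ | (∀ j, |α j| ≤ X n ^ θ) ∧ ¬ AsPredicted s δ (X n) α} ⊆
          {α : Fin k → ℝ | (∀ j, |α j| ≤ X n ^ θ) ∧
            X n ^ (1 - δ₀) < ‖coefficientSum s (X n) α - X n * residue (fun j => Complex.I * (α j : ℂ))‖} := by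
        rintro α ⟨h6, h7⟩
        refine ⟨h6, ?_⟩
        unfold AsPredicted at h7
        rw [not_le] at h7
        refine lt_of_le_of_lt ?_ h7
        exact Real.rpow_le_rpow_of_exponent_le hXn (by linarith)
      have h6 := (measure_mono h5).trans (h0 (X n) h1)
      refine le_trans (measure_mono ?_) (h4.trans (le_trans (mul_le_mul_right h6 _) ?_))
      · rintro b ⟨_, hb1, hb2⟩
        exact ⟨hb1, hb2⟩
      · rw [← ENNReal.ofReal_mul (by positivity)]
        apply ENNReal.ofReal_le_ofReal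
        have h7 : (X n ^ (θ - δ)) ^ k ≤ r n ^ k := pow_le_pow_left₀ (by positivity) h2 k
        have h8 : (r n ^ k)⁻¹ ≤ ((X n ^ (θ - δ)) ^ k)⁻¹ := inv_anti₀ (by positivity) h7
        calc (r n ^ k)⁻¹ * X n ^ ((k : ℝ) * θ - δ₀) ≤ ((X n ^ (θ - δ)) ^ k)⁻¹ * X n ^ ((k : ℝ) * θ - δ₀) :=
              mul_le_mul_of_nonneg_right h8 (by positivity)
          _ = X n ^ (-(k * δ)) := by
              rw [← Real.rpow_natCast, ← Real.rpow_mul hX0.le, ← Real.rpow_neg hX0.le, ← Real.rpow_add hX0]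
              congr 1
              rw [hδ2]
              ring
    · have : {b : Fin k → ℝ | Q n ∧ (∀ j, |b j| ≤ 1) ∧
          ¬ AsPredicted s δ (X n) fun j => c n j + r n * b j} = ∅ := by
        ext b
        simp [hQn]
      rw [this, measure_empty]
      exact zero_le
  have hsum : ∑' n, volume {b : Fin k → ℝ | Q n ∧ (∀ j, |b j| ≤ 1) ∧
      ¬ AsPredicted s δ (X n) fun j => c n j + r n * b j} ≠ ⊤ := by
    refine ne_top_of_le_ne_top ?_ (ENNReal.tsum_le_tsum hmeas)
    rw [← ENNReal.ofReal_tsum_of_nonneg (fun n => Real.rpow_nonneg (by linarith [hX1 n]) _)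
      (hX (k * δ) (by positivity))]
    exact ENNReal.ofReal_ne_top
  have h1 := measure_setOfPred_frequently_eq_zero hsum
  have h2 : ∀ᵐ b : Fin k → ℝ, ¬ ∃ᶠ n in atTop, Q n ∧ (∀ j, |b j| ≤ 1) ∧
      ¬ AsPredicted s δ (X n) fun j => c n j + r n * b j := by
    rw [ae_iff]
    simp only [not_not]
    exact h1
  filter_upwards [h2] with b hb hb1
  rw [not_frequently] at hb
  filter_upwards [hb, hXlarge, hcr] with n h3 h4 h5
  by_contra h6
  refine h3 ⟨?_, hb1, h6⟩
  rw [hQ]
  exact ⟨h4, h5.1, h5.2⟩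

end Pool.Agent.Results.MP_fed7ff_nt.AlmostEveryDirection
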